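import Pool.Agent.P.MP_6f117a_ag.H.Main

/-! The general hypersurface of degree at least `2 n` in projective space of dimension `n` is
algebraically hyperbolic, with one constant for all hypersurfaces in a Zariski open set. -/

namespace Pool.Agent.Results.MP_6f117a_ag.GeneralHypersurface

open Pool.Agent.P.MP_6f117a_ag MvPolynomial

universe u

theorem result (L : Type u) [Field L] [IsAlgClosed L] [CharZero L] (n d : ℕ) (hn : 2 ≤ n)
    (hd : 2 * n ≤ d) :
    ∃ (α : ℝ) (Δ : MvPolynomial {μ : Fin (n + 1) →₀ ℕ // μ.degree = d} L), Δ ≠ 0 ∧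
      ∀ F : MvPolynomial (Fin (n + 1)) L, F.IsHomogeneous d →
        eval (fun μ => coeff μ.1 F) Δ ≠ 0 →
          ∀ (K : Type u) [Field K] [Algebra L K], (⊤ : IntermediateField L K).FG →
            Algebra.trdeg L K = 1 → ∀ x : Fin (n + 1) → K, x ≠ 0 → aeval x F = 0 →
              (degree L x : ℝ) ≤ α * genus L K := by
  obtain ⟨α, Δ, h1, h2⟩ := H.general (L := L) hn hd
  refine ⟨α, Δ, h1, fun F a b K _ _ f1 f2 x c e => ?_⟩
  have := FF.of_fg f1 f2.le
  exact_mod_cast h2 F a b K x c e

end Pool.Agent.Results.MP_6f117a_ag.GeneralHypersurface
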