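import Pool.Agent.P.MP_6f117a_ag.PJ.Final

/-! A closed subvariety of projective space all of whose integral closed subvarieties are of
general type is algebraically hyperbolic. -/

namespace Pool.Agent.Results.MP_6f117a_ag.HypImpliesAlgHyp

open Pool.Agent.P.MP_6f117a_ag

universe u

theorem result (L : Type u) [Field L] [IsAlgClosed L] [CharZero L] (n : ℕ) (ι : Type)
    (G : ι → MvPolynomial (Fin (n + 1)) L) (hG : ∀ t, ∃ e, (G t).IsHomogeneous e)
    (h : PJ.Hyperbolic' G) : AlgHyperbolic G :=
  PJ.hyp_of_ap L (PJ.ap_all L) n ι G hG h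

end Pool.Agent.Results.MP_6f117a_ag.HypImpliesAlgHyp
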