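import Pool.Agent.P.MP_6f117a_ag.Height

/-! The hyperbolicity notions agree for pull-backs of projective varieties under power maps of
large exponent, uniformly in the number of monomials of the equations. -/

namespace Pool.Agent.Results.MP_6f117a_ag.Kummer

open Pool.Agent.P.MP_6f117a_ag MvPolynomial

universe u

theorem result (N : ℕ) : ∃ m₀ : ℕ, ∀ (L : Type u) [Field L] [IsAlgClosed L] [CharZero L] (n : ℕ)
    (ι : Type) [Fintype ι] (F : ι → MvPolynomial (Fin (n + 1)) L) (d m : ι → ℕ),
    (∀ t, (F t).IsHomogeneous (d t)) → ∑ t, (F t).support.card ≤ N → (∀ t, m₀ ≤ m t) →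
    List.TFAE [AlgHyperbolic fun t => expand (m t) (F t), GmConstant fun t => expand (m t) (F t),
      Hyperbolic fun t => expand (m t) (F t)] := by
  obtain ⟨r₀, m₀, h0, hB⟩ := exists_blkPluri.{u} N
  refine ⟨m₀, fun L _ _ _ n ι _ F d m hd hN hm => ?_⟩
  classical
  have hJ : Fintype.card (Σ t, (F t).support) ≤ N := by simpa using hN
  tfae_have 1 → 2 := gm_of_algHyp _
  tfae_have 3 → 2 := gm_of_hyp _ (d := fun t => m t * d t) fun t K _ _ y z => by
    simp only [aeval_expand]
    simp only [aeval_def, eval₂_eq', Finset.sum_div]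
    refine Finset.sum_congr rfl fun α hα => ?_
    rw [(hd t).degree_eq_sum_deg_support hα, Finset.sum_subset (Finset.subset_univ _)
      fun i _ h => Finsupp.notMem_support_iff.1 h]
    simp only [Pi.pow_apply, div_pow, Finset.prod_div_distrib, mul_div_assoc,
      Finset.prod_pow_eq_pow_sum, pow_mul]
  tfae_have 2 → 1 := fun h => by
    obtain ⟨α, hα⟩ := sparse_algHyp h0 hB _ _ _ m hJ hm
      fun x h1 h2 => h x h1 ((eqs_iff F m x).1 h2)
    exact ⟨α, fun K _ _ h1 h2 x x0 hx => hα K h1 h2 x x0 ((eqs_iff F m x).2 hx)⟩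
  tfae_have 2 → 3 := fun h K _ _ x _ hx hK => sparse_generalType h0 hB _ _ _ m hJ hm
    (fun x h1 h2 => h x h1 ((eqs_iff F m x).1 h2)) x ((eqs_iff F m x).2 hx) hK
  tfae_finish

end Pool.Agent.Results.MP_6f117a_ag.Kummer
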